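import Pool.Agent.Lib.MP_436e1a_gt.Ctx

/-! A regular covering from a locally constant cocycle. -/

open scoped Topology
open Set

namespace Pool.Agent.CSP

/-- the total space, as a set -/
@[ext]
structure CocY (X G : Type) : Type where
  /-- base point -/
  pt : X
  /-- fibre coordinate -/
  fb : G

/-- the action by left multiplication in the fibre -/
instance cocAct {X G : Type} [Group G] : MulAction G (CocY X G) where
  smul g y := ⟨y.pt, g * y.fb⟩
  one_smul y := CocY.ext rfl (one_mul y.fb)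
  mul_smul g h y := CocY.ext rfl (mul_assoc g h y.fb)

/-- the final topology for the translates of local sections -/
@[reducible]
def cocTop {X G A : Type} [TopologicalSpace X] [Group G] (U : A → Set X) (hU : ∀ a, IsOpen (U a))
    (s : A → X → CocY X G) : TopologicalSpace (CocY X G) where
  IsOpen W := ∀ (a : A) (g : G), IsOpen {x | x ∈ U a ∧ g • s a x ∈ W}
  isOpen_univ a _ := by simpa using hU a
  isOpen_inter W W' h h' a g := by
    convert (h a g).inter (h' a g) using 1
    ext x
    simp only [mem_ofPred_eq, mem_inter_iff]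
    tauto
  isOpen_sUnion S h a g := by
    convert isOpen_biUnion fun W hW => h W hW a g using 1
    ext x
    simp only [mem_ofPred_eq, mem_sUnion, mem_iUnion, exists_prop]
    tauto

/-- Sketch. Choose `ix x` with `x ∈ U (ix x)`. Let `Y` be a type synonym (a structure) of `X × G`,
`g • (x, g') = (x, g * g')`, `q = fst`, `s a x = (x, k a (ix x) x)`. Declare `W` open iff
`{x | x ∈ U a ∧ g • s a x ∈ W}` is open for all `a`, `g`. The sheets `{g • s a x | x ∈ V}`, `V ⊆ U a` open,
are open because `k` is locally constant; distinct translates of a sheet are disjoint. -/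
theorem exists_cov_of_cocycle {X G A : Type} [TopologicalSpace X] [Group G] (U : A → Set X)
    (hU : ∀ a, IsOpen (U a)) (hc : ∀ x, ∃ a, x ∈ U a) (k : A → A → X → G)
    (hk : ∀ a b, ∀ x ∈ U a ∩ U b, ∀ᶠ y in 𝓝 x, k a b y = k a b x)
    (hm : ∀ a b d x, x ∈ U a → x ∈ U b → x ∈ U d → k a b x * k b d x = k a d x) :
    ∃ (Y : Type) (_ : TopologicalSpace Y) (_ : MulAction G Y) (q : Y → X) (s : A → X → Y),
      IsQuotientCoveringMap q G ∧ (∀ a, ContinuousOn (s a) (U a)) ∧
      (∀ a, ∀ x ∈ U a, q (s a x) = x) ∧ ∀ a b, ∀ x ∈ U a ∩ U b, s a x = k a b x • s b x := by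
  choose ix hix using hc
  let s : A → X → CocY X G := fun a x => ⟨x, k a (ix x) x⟩
  let _ := cocTop U hU s
  have hop : ∀ {W : Set (CocY X G)}, IsOpen W ↔
      ∀ (a : A) (g : G), IsOpen {x | x ∈ U a ∧ g • s a x ∈ W} := Iff.rfl
  refine ⟨CocY X G, cocTop U hU s, cocAct, CocY.pt, s, ?_, fun a => ?_, fun _ _ _ => rfl,
    fun a b x hx => CocY.ext rfl (hm a b (ix x) x hx.1 hx.2 (hix x)).symm⟩
  · refine
      { toIsQuotientMap := ⟨Topology.isCoinducing_iff.2 fun V =>
          ⟨fun hV => ?_, fun hV => hop.2 fun a _ => (hU a).inter hV⟩, fun x => ⟨⟨x, 1⟩, rfl⟩⟩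
        continuous_const_smul := fun g => continuous_def.2 fun W hW => hop.2 fun a g' => ?_
        apply_eq_iff_mem_orbit := fun {e e'} => ⟨fun h => ⟨e.fb * e'.fb⁻¹, CocY.ext h.symm ?_⟩, ?_⟩
        disjoint := fun e => ?_ }
    · exact isOpen_iff_forall_mem_open.2 fun x hx =>
        ⟨_, fun y hy => hy.2, hop.1 hV (ix x) 1, hix x, hx⟩
    · have h1 := hop.1 hW a (g * g')
      simp only [mul_smul] at h1
      exact h1
    · exact inv_mul_cancel_right e.fb e'.fb
    · rintro ⟨g, rfl⟩
      rfl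
    · let a := ix e.pt
      let h := e.fb * (k a a e.pt)⁻¹
      refine ⟨{y | y.pt ∈ U a ∧ y.fb = h * k a (ix y.pt) y.pt}, IsOpen.mem_nhds (hop.2 fun b g => ?_)
        ⟨hix _, (inv_mul_cancel_right e.fb (k a a e.pt)).symm⟩, ?_⟩
      · have key : ∀ x, x ∈ U a → x ∈ U b →
            (g * k b (ix x) x = h * k a (ix x) x ↔ g = h * k a b x) := fun x ha hb => by
          rw [← hm a b (ix x) x ha hb (hix x), ← mul_assoc, mul_left_inj]
        refine isOpen_iff_mem_nhds.2 fun x hx => ?_
        have h1 : g = h * k a b x := (key x hx.2.1 hx.1).1 hx.2.2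
        filter_upwards [(hU a).mem_nhds hx.2.1, (hU b).mem_nhds hx.1, hk a b x ⟨hx.2.1, hx.1⟩]
          with y ha hb hy
        exact ⟨hb, ha, (key y ha hb).2 (by rw [hy, h1])⟩
      · rintro g ⟨_, ⟨y, hy, rfl⟩, hy'⟩
        have h1 : g * y.fb = y.fb := hy'.2.trans hy.2.symm
        exact mul_eq_right.1 h1
  · refine (continuousOn_open_iff (hU a)).2 fun W hW => ?_
    have h1 := hop.1 hW a 1
    simp only [one_smul] at h1
    exact h1

end Pool.Agent.CSP
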