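import Pool.Agent.Lib.MP_436e1a_gt.C.SumDef
import Pool.Agent.Lib.MP_436e1a_gt.B.Emb
import Pool.Agent.Lib.MP_436e1a_gt.Alg.Wd

/-! The projections of the tree covering. -/

open Set Monoid Metric Filter
open scoped Topology

namespace Pool.Agent.CSP

theorem prj_q_smul {N : Mfd} (D : Cov N) (g : D.G) (y : D.Y) : D.q (g • y) = D.q y :=
  D.cov.map_smul g

theorem prj_q_eq {N : Mfd} (D : Cov N) {y y' : D.Y} (e : D.q y = D.q y') : ∃ g : D.G, y = g • y' :=
  (D.cov.apply_eq_iff_mem_orbit.1 e).imp fun _ h => h.symm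

theorem prj_free {N : Mfd} (D : Cov N) {g g' : D.G} {y : D.Y} (e : g • y = g' • y) : g = g' :=
  D.cov.isCancelSMul.right_cancel' g g' y e

theorem prj_q_cont {N : Mfd} (D : Cov N) : Continuous D.q := D.cov.isCoveringMap.continuous

/-- a lift of a locally open map is locally open -/
theorem prj_lift {Z : Type} [TopologicalSpace Z] {N : Mfd} (D : Cov N) {f : Z → D.Y} {z : Z}
    (hf : ContinuousAt f z) (hm : 𝓝 (D.q (f z)) ≤ map (fun x => D.q (f x)) (𝓝 z)) :
    𝓝 (f z) ≤ map f (𝓝 z) := by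
  obtain ⟨U, hU, hi⟩ :=
    isLocallyInjective_iff_nhds.1 D.cov.isCoveringMap.isLocalHomeomorph.isLocallyInjective (f z)
  refine le_map fun W hW => ?_
  filter_upwards [hU, (prj_q_cont D).continuousAt (hm (image_mem_map (inter_mem hW (hf hU))))]
  rintro y hy ⟨x, hx, e⟩
  exact ⟨x, hx.1, hi hx.2 hy e⟩

theorem prj_cont_at {Z Y W : Type} [TopologicalSpace Z] [TopologicalSpace Y] [TopologicalSpace W]
    {f : Z → Y} {z : Z} (hf : 𝓝 (f z) ≤ map f (𝓝 z)) {π : ℝ × Y → W} {g : ℝ × Z → W} {τ : ℝ}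
    (hg : ContinuousAt g (τ, z)) (he : ∀ᶠ x in 𝓝 z, ∀ t, π (t, f x) = g (t, x)) :
    ContinuousAt π (τ, f z) := by
  have h1 : 𝓝 (τ, f z) ≤ map (Prod.map id f) (𝓝 (τ, z)) := by
    rw [nhds_prod_eq, nhds_prod_eq, ← prod_map_right]
    exact prod_mono le_rfl hf
  refine Tendsto.mono_left (tendsto_map' ?_) h1
  rw [he.self_of_nhds τ]
  refine hg.tendsto.congr' ?_
  filter_upwards [(continuousAt_snd (p := (τ, z))).eventually he] with p hp
  exact (hp p.1).symm

theorem prj_col_one (τ : ℝ) {v : E 5} (h : 1 ≤ ‖v‖) : col τ v = v := by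
  rw [col, min_eq_left (by linarith), max_eq_right zero_le_one]
  simp

theorem prj_col_half (τ : ℝ) {v : E 5} (h : ‖v‖ ≤ 1 / 2) : col τ v = τ • ray := by
  rw [col, max_eq_left ((min_le_right _ _).trans (by linarith))]
  simp

theorem prj_col_cont : Continuous fun p : ℝ × E 5 => col p.1 p.2 := by
  unfold col
  fun_prop

variable {M : Bool → Mfd} {X : Mfd} {i : ∀ s, E 5 → M s} {a : ∀ s, M s → X}
  {C : ∀ s, Cov (M s)} {Cx : Cov X} {φ : FP C ≃* Cx.G}
  {j : ∀ s, E 5 → (C s).Y} {A : ∀ s, (C s).Y → Cx.Y}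

theorem prj_inj (hD : SumD M X i a) (s : Bool) : Function.Injective (i s) :=
  (hD.disc s).elim fun _ h => injOn_univ.1 h.2.1

theorem prj_icont (hD : SumD M X i a) (s : Bool) : Continuous (i s) :=
  (hD.disc s).elim fun _ h => continuousOn_univ.1 h.continuousOn

theorem prj_jne (hD : SumD M X i a) (h : SumC i a C Cx φ j A) (s : Bool) {v : E 5} (hv : v ≠ 0) :
    (C s).q (j s v) ≠ i s 0 := fun e => hv (prj_inj hD s ((h.j_q s v).symm.trans e))

theorem prj_disc (h : SumC i a C Cx φ j A) {s : Bool} {z : (C s).Y} {v : E 5}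
    (e : (C s).q z = i s v) : ∃ k : (C s).G, z = k • j s v :=
  prj_q_eq _ (e.trans (h.j_q s v).symm)

theorem prj_neck (hD : SumD M X i a) (h : SumC i a C Cx φ j A) {s t : Bool} (hst : s ≠ t)
    (w : FP C) (k : (C s).G) {v : E 5} (hv : v ≠ 0) :
    φ w • A s (k • j s v) = φ (w * ofs s k) • A t (j t (inv5 v)) := by
  rw [h.equi s k _ (prj_jne hD h s hv), h.neck s t hst v hv, map_mul, mul_smul]

/-- every point lies in a translate of a piece -/
theorem SumC.cover (hD : SumD M X i a) (h : SumC i a C Cx φ j A) (y : Cx.Y) :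
    ∃ s w z, (C s).q z ≠ i s 0 ∧ y = φ w • A s z := by
  obtain ⟨s, x, hx, e⟩ := hD.cover (Cx.q y)
  obtain ⟨z, rfl⟩ := (C s).cov.surjective x
  obtain ⟨g, hg⟩ := prj_q_eq Cx (e.symm.trans (h.comm s z hx).symm)
  exact ⟨s, φ.symm g, z, hx, by rwa [φ.apply_symm_apply]⟩

/-- every point lies in a translate of the core of a piece -/
theorem SumC.cover_core (hD : SumD M X i a) (h : SumC i a C Cx φ j A) (y : Cx.Y) :
    ∃ s w z, (C s).q z ∉ i s '' ball 0 1 ∧ y = φ w • A s z := by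
  obtain ⟨s, w, z, hz, rfl⟩ := h.cover hD y
  by_cases hb : (C s).q z ∈ i s '' ball 0 1
  swap
  · exact ⟨s, w, z, hb, rfl⟩
  obtain ⟨v, hv, e⟩ := hb
  have h0 : v ≠ 0 := fun h0 => hz (by rw [← e, h0])
  obtain ⟨k, rfl⟩ := prj_disc h e.symm
  refine ⟨!s, _, _, ?_, prj_neck hD h (Bool.not_ne_self s).symm w k h0⟩
  rintro ⟨u, hu, e'⟩
  rw [h.j_q] at e'
  rw [prj_inj hD _ e', mem_ball_zero_iff, norm_inv5] at hu
  exact (one_lt_inv₀ (norm_pos_iff.2 h0)).2 (mem_ball_zero_iff.1 hv) |>.not_gt hu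

/-- translates of the same piece meet only inside a coset -/
theorem SumC.same (hD : SumD M X i a) (h : SumC i a C Cx φ j A) {s : Bool} {w w' : FP C}
    {z z' : (C s).Y} (hz : (C s).q z ≠ i s 0) (hz' : (C s).q z' ≠ i s 0)
    (e : φ w • A s z = φ w' • A s z') : ∃ k : (C s).G, w' = w * ofs s k ∧ z = k • z' := by
  have h1 := congrArg Cx.q e
  rw [prj_q_smul, prj_q_smul, h.comm s z hz, h.comm s z' hz'] at h1
  obtain ⟨k, rfl⟩ := prj_q_eq _ ((hD.emb s).2.1 hz hz' h1)
  rw [h.equi s k z' hz', ← mul_smul, ← map_mul] at e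
  exact ⟨k, (φ.injective (prj_free Cx e)).symm, rfl⟩

/-- translates of different pieces meet along necks -/
theorem SumC.diff (hD : SumD M X i a) (h : SumC i a C Cx φ j A) {s t : Bool} (hst : s ≠ t)
    {w w' : FP C} {z : (C s).Y} {z' : (C t).Y} (hz : (C s).q z ≠ i s 0)
    (hz' : (C t).q z' ≠ i t 0) (e : φ w • A s z = φ w' • A t z') :
    ∃ (v : E 5) (k : (C s).G) (k' : (C t).G), v ≠ 0 ∧ z = k • j s v ∧ z' = k' • j t (inv5 v) ∧
      w * ofs s k = w' * ofs t k' := by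
  have h1 := congrArg Cx.q e
  rw [prj_q_smul, prj_q_smul, h.comm s z hz, h.comm t z' hz'] at h1
  obtain ⟨v, hv, e1, e2⟩ := (hD.glue s t hst _ hz _ hz').1 h1
  obtain ⟨k, rfl⟩ := prj_disc h e1
  obtain ⟨k', rfl⟩ := prj_disc h e2
  rw [prj_neck hD h hst w k hv, h.equi t k' _ (prj_jne hD h t (inv5_ne_zero hv)), ← mul_smul,
    ← map_mul] at e
  exact ⟨v, k, k', hv, rfl, rfl, φ.injective (prj_free Cx e)⟩

theorem prj_open (s : Bool) : IsOpen {z : (C s).Y | (C s).q z ≠ i s 0} :=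
  isOpen_compl_singleton.preimage (prj_q_cont (C s))

theorem prj_open2 (hD : SumD M X i a) (s : Bool) :
    IsOpen {z : (C s).Y | (C s).q z ∉ i s '' closedBall 0 2} :=
  ((isCompact_closedBall 0 2).image (prj_icont hD s)).isClosed.isOpen_compl.preimage
    (prj_q_cont (C s))

theorem prj_A_nhds (hD : SumD M X i a) (h : SumC i a C Cx φ j A) {s : Bool} (g : Cx.G)
    {z : (C s).Y} (hz : (C s).q z ≠ i s 0) :
    𝓝 (g • A s z) ≤ map (fun x => g • A s x) (𝓝 z) := by
  have hO := (prj_open (i := i) s).mem_nhds hz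
  refine prj_lift Cx (f := fun x => g • A s x)
    ((Cx.cov.continuous_const_smul g).continuousAt.comp ((h.cont s).continuousAt hO)) ?_
  have h1 : (fun x => Cx.q (g • A s x)) =ᶠ[𝓝 z] a s ∘ (C s).q := by
    filter_upwards [hO] with x hx
    rw [prj_q_smul, h.comm s x hx, Function.comp_apply]
  rw [map_congr h1, ← map_map, (C s).cov.isCoveringMap.isLocalHomeomorph.map_nhds_eq,
    (hD.emb s).map_nhds isOpen_compl_singleton hz]
  exact (congrArg 𝓝 h1.self_of_nhds).le

theorem prj_j_nhds (hD : SumD M X i a) (h : SumC i a C Cx φ j A) {s : Bool} (k : (C s).G)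
    (v : E 5) : 𝓝 (k • j s v) ≤ map (fun u => k • j s u) (𝓝 v) := by
  refine prj_lift (C s) (f := fun u => k • j s u)
    (((C s).cov.continuous_const_smul k).comp (h.j_cont s)).continuousAt ?_
  obtain ⟨σ, hσ⟩ := hD.disc s
  simp only [prj_q_smul, h.j_q]
  exact (hσ.map_nhds isOpen_univ (mem_univ v)).ge

/-- `A s` maps open subsets of the punctured covering to open sets -/
theorem SumC.isOpen_image (hD : SumD M X i a) (h : SumC i a C Cx φ j A) {s : Bool}
    {W : Set (C s).Y} (hW : IsOpen W) (hW' : ∀ z ∈ W, (C s).q z ≠ i s 0) : IsOpen (A s '' W) := by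
  rw [isOpen_iff_mem_nhds]
  rintro _ ⟨z, hz, rfl⟩
  simpa only [one_smul] using prj_A_nhds hD h 1 (hW' z hz) (image_mem_map (hW.mem_nhds hz))

/-- the collapse of the discs in the covering of a piece -/
theorem prj_cl (hD : SumD M X i a) (h : SumC i a C Cx φ j A) (s : Bool) :
    ∃ cl : ℝ × (C s).Y → (C s).Y, Continuous cl ∧
      (∀ τ (k : (C s).G) v, cl (τ, k • j s v) = k • j s (col τ v)) ∧
      (∀ τ z, (C s).q z ∉ i s '' ball 0 1 → cl (τ, z) = z) ∧
      ∀ τ (k : (C s).G) z, cl (τ, k • z) = k • cl (τ, z) := by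
  classical
  obtain ⟨cl, h1, h2⟩ : ∃ cl : ℝ × (C s).Y → (C s).Y,
      (∀ τ (k : (C s).G) v, cl (τ, k • j s v) = k • j s (col τ v)) ∧
      ∀ τ z, (C s).q z ∉ range (i s) → cl (τ, z) = z := by
    refine ⟨fun p => if hp : ∃ c : (C s).G × E 5, p.2 = c.1 • j s c.2 then
      hp.choose.1 • j s (col p.1 hp.choose.2) else p.2, fun τ k v => ?_, fun τ z hz => ?_⟩
    · have hp : ∃ c : (C s).G × E 5, k • j s v = c.1 • j s c.2 := ⟨(k, v), rfl⟩
      have e := hp.choose_spec
      have e1 : v = hp.choose.2 := prj_inj hD s (by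
        simpa only [prj_q_smul, h.j_q] using congrArg (C s).q e)
      rw [← e1] at e
      simp only [dif_pos hp]
      rw [← e1, ← prj_free _ e]
    · refine dif_neg fun ⟨c, e⟩ => hz ⟨c.2, ?_⟩
      rw [show z = _ from e, prj_q_smul, h.j_q]
  have h3 : ∀ τ z, (C s).q z ∉ i s '' ball 0 1 → cl (τ, z) = z := fun τ z hz => by
    by_cases hr : (C s).q z ∈ range (i s)
    · obtain ⟨v, e⟩ := hr
      obtain ⟨k, rfl⟩ := prj_disc h e.symm
      rw [h1, prj_col_one τ (not_lt.1 fun hv => hz ⟨v, mem_ball_zero_iff.2 hv, e⟩)]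
    · exact h2 τ z hr
  refine ⟨cl, continuous_iff_continuousAt.2 fun ⟨τ, z⟩ => ?_, h1, h3, fun τ k z => ?_⟩
  · by_cases hz : (C s).q z ∈ i s '' closedBall 0 2
    · obtain ⟨v, -, e⟩ := hz
      obtain ⟨k, rfl⟩ := prj_disc h e.symm
      exact prj_cont_at (prj_j_nhds hD h k v) (g := fun p => k • j s (col p.1 p.2))
        (((C s).cov.continuous_const_smul k).comp ((h.j_cont s).comp prj_col_cont)).continuousAt
        (Eventually.of_forall fun u t => h1 t k u)
    · refine prj_cont_at (f := id) map_id.ge continuousAt_snd ?_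
      filter_upwards [(prj_open2 hD s).mem_nhds hz] with x hx t
      exact h3 t x fun hb => hx (image_mono
        (ball_subset_closedBall.trans (closedBall_subset_closedBall one_le_two)) hb)
  · by_cases hr : (C s).q z ∈ range (i s)
    · obtain ⟨v, e⟩ := hr
      obtain ⟨k', rfl⟩ := prj_disc h e.symm
      rw [← mul_smul, h1, h1, mul_smul]
    · rw [h2 τ z hr, h2 τ _ (by rwa [prj_q_smul])]

theorem prj_hd_mul {s t : Bool} {w : FP C} (k : (C t).G) (hw : ¬ (t = s ∧ ∃ k, w = ofs s k)) :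
    hd s (w * ofs t k) = hd s w := hd_mul_of (H := fun s => (C s).G) k hw

theorem prj_hd_of {s : Bool} (k : (C s).G) (w : FP C) : hd s (ofs s k * w) = k * hd s w :=
  hd_of_mul (H := fun s => (C s).G) k w

/-- the first letter is well defined away from the base piece -/
theorem prj_hd (hD : SumD M X i a) (h : SumC i a C Cx φ j A) (s : Bool) {t t' : Bool} {w w' : FP C}
    {z : (C t).Y} {z' : (C t').Y} (hz : (C t).q z ≠ i t 0) (hz' : (C t').q z' ≠ i t' 0)
    (hw : ¬ (t = s ∧ ∃ k, w = ofs s k)) (hw' : ¬ (t' = s ∧ ∃ k, w' = ofs s k))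
    (e : φ w • A t z = φ w' • A t' z') : hd s w = hd s w' := by
  by_cases htt : t = t'
  · subst htt
    obtain ⟨k, rfl, -⟩ := h.same hD hz hz' e
    exact (prj_hd_mul k hw).symm
  · obtain ⟨v, k, k', -, -, -, e'⟩ := h.diff hD htt hz hz' e
    rw [← prj_hd_mul k hw, e', prj_hd_mul k' hw']

theorem prj_far (h : SumC i a C Cx φ j A) {s t : Bool} {w : FP C} {z : (C t).Y}
    (hz : (C t).q z ≠ i t 0) (hy : ¬ ∃ x, (C s).q x ≠ i s 0 ∧ φ w • A t z = A s x) :
    ¬ (t = s ∧ ∃ k, w = ofs s k) := by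
  rintro ⟨rfl, k, rfl⟩
  exact hy ⟨k • z, by rwa [prj_q_smul], (h.equi t k z hz).symm⟩

/-- the two formulas for the projection -/
theorem prj_def (hD : SumD M X i a) (h : SumC i a C Cx φ j A) (s : Bool)
    (cl : ℝ × (C s).Y → (C s).Y) : ∃ π : ℝ × Cx.Y → (C s).Y,
      (∀ τ z, (C s).q z ≠ i s 0 → π (τ, A s z) = cl (τ, z)) ∧
      ∀ τ t w z, (C t).q z ≠ i t 0 → (¬ ∃ x, (C s).q x ≠ i s 0 ∧ φ w • A t z = A s x) →
        π (τ, φ w • A t z) = hd s w • j s (τ • ray) := by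
  classical
  choose T W Z h1 h2 using h.cover hD
  refine ⟨fun p => if hp : ∃ x, (C s).q x ≠ i s 0 ∧ p.2 = A s x then cl (p.1, hp.choose)
    else hd s (W p.2) • j s (p.1 • ray), fun τ z hz => ?_, fun τ t w z hz hy => ?_⟩
  · have hp : ∃ x, (C s).q x ≠ i s 0 ∧ A s z = A s x := ⟨z, hz, rfl⟩
    obtain ⟨k, e1, e2⟩ := h.same hD (w := 1) (w' := 1) hz hp.choose_spec.1
      (congrArg _ hp.choose_spec.2)
    rw [one_mul, eq_comm, ← map_one (CoprodI.of (M := fun s => (C s).G) (i := s))] at e1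
    rw [CoprodI.of_injective s e1, one_smul] at e2
    simp only [dif_pos hp]
    rw [← e2]
  · simp only [dif_neg hy]
    rw [prj_hd hD h s hz (h1 _) (prj_far h hz hy) (prj_far h (h1 _) (h2 _ ▸ hy)) (h2 _)]

/-- the projections exist -/
theorem exists_prj (hD : SumD M X i a) (h : SumC i a C Cx φ j A) :
    ∃ π, Prj i a C Cx φ j A π := by
  choose cl c1 c2 c3 c4 using prj_cl hD h
  choose π p1 p2 using fun s => prj_def hD h s (cl s)
  have hb : ∀ s (z : (C s).Y) (r : Set (E 5)), 0 ∈ r → (C s).q z ∉ i s '' r → (C s).q z ≠ i s 0 :=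
    fun s z r h0 hz e => hz ⟨0, h0, e.symm⟩
  have hj : ∀ s (k : (C s).G), Continuous fun τ : ℝ => k • j s (τ • ray) := fun s k =>
    ((C s).cov.continuous_const_smul k).comp ((h.j_cont s).comp (by fun_prop))
  have p3 : ∀ s τ w z, (C s).q z ≠ i s 0 → (¬ ∃ k, w = ofs s k) →
      π s (τ, φ w • A s z) = hd s w • j s (τ • ray) := fun s τ w z hz hw => by
    refine p2 s τ s w z hz fun ⟨x, hx, e⟩ => ?_
    obtain ⟨k, e1, -⟩ := h.same hD (w := 1) (w' := w) hx hz (by rw [map_one, one_smul, e])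
    exact hw ⟨k, e1.trans (one_mul _)⟩
  have p4 : ∀ s τ t w z, s ≠ t → (C t).q z ∉ i t '' closedBall 0 2 →
      π s (τ, φ w • A t z) = hd s w • j s (τ • ray) := fun s τ t w z hst hz => by
    have hz0 := hb t z _ (mem_closedBall_self zero_le_two) hz
    by_cases hy : ∃ x, (C s).q x ≠ i s 0 ∧ φ w • A t z = A s x
    swap
    · exact p2 s τ t w z hz0 hy
    obtain ⟨x, hx, e⟩ := hy
    obtain ⟨v, k, k', hv, rfl, rfl, e1⟩ := h.diff hD hst (w := 1) (w' := w) hx hz0
      (by rw [map_one, one_smul, e])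
    have h2 : 2 < ‖v‖⁻¹ := not_le.1 fun h2 => hz ⟨inv5 v,
      mem_closedBall_zero_iff.2 (by rwa [norm_inv5]), by rw [prj_q_smul, h.j_q]⟩
    have h3 : ‖v‖ ≤ 1 / 2 := by
      rw [lt_inv_comm₀ two_pos (norm_pos_iff.2 hv)] at h2
      linarith
    have h4 : hd s w = k := by
      rw [← prj_hd_mul k' fun e => hst e.1.symm, ← e1, one_mul, ← mul_one (ofs s k), prj_hd_of,
        hd_eq_one.2 not_St_one, mul_one]
    rw [e, p1 s τ _ hx, c2, prj_col_half τ h3, h4]
  refine ⟨π, fun s => continuous_iff_continuousAt.2 fun ⟨τ, y⟩ => ?_, fun s τ k y => ?_,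
    fun s τ z hz => ?_, fun s y hy => ?_⟩
  · have k1 : ∀ w z, (C s).q z ≠ i s 0 → ContinuousAt (π s) (τ, φ w • A s z) := fun w z hz => by
      have hO := (prj_open (i := i) s).mem_nhds hz
      by_cases hw : ∃ k, w = ofs s k
      · obtain ⟨k, rfl⟩ := hw
        refine prj_cont_at (prj_A_nhds hD h _ hz) (g := fun p => k • cl s p)
          (((C s).cov.continuous_const_smul k).comp (c1 s)).continuousAt ?_
        filter_upwards [hO] with x hx t
        rw [← h.equi s k x hx, p1 s t _ (by rwa [prj_q_smul]), c4]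
      · refine prj_cont_at (prj_A_nhds hD h _ hz)
          ((hj s (hd s w)).comp continuous_fst).continuousAt ?_
        filter_upwards [hO] with x hx t using p3 s t w x hx hw
    obtain ⟨t, w, z, hz, rfl⟩ := h.cover hD y
    by_cases hst : s = t
    · subst hst
      exact k1 w z hz
    by_cases h2 : (C t).q z ∈ i t '' closedBall 0 2
    · obtain ⟨v, -, e⟩ := h2
      have h0 : v ≠ 0 := fun h0 => hz (by rw [← e, h0])
      obtain ⟨k, rfl⟩ := prj_disc h e.symm
      rw [prj_neck hD h (Ne.symm hst) w k h0]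
      exact k1 _ _ (prj_jne hD h s (inv5_ne_zero h0))
    · refine prj_cont_at (prj_A_nhds hD h _ hz)
        ((hj s (hd s w)).comp continuous_fst).continuousAt ?_
      filter_upwards [(prj_open2 hD t).mem_nhds h2] with x hx u using p4 s u t w x hst hx
  · by_cases hy : ∃ x, (C s).q x ≠ i s 0 ∧ y = A s x
    · obtain ⟨x, hx, rfl⟩ := hy
      rw [← h.equi s k x hx, p1 s τ _ (by rwa [prj_q_smul]), p1 s τ x hx, c4]
    · obtain ⟨t, w, z, hz, rfl⟩ := h.cover hD y
      rw [p2 s τ t w z hz hy, ← mul_smul, ← map_mul, p2 s τ t _ z hz, ← mul_smul, prj_hd_of]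
      rintro ⟨x, hx, e⟩
      refine hy ⟨k⁻¹ • x, by rwa [prj_q_smul], ?_⟩
      rw [h.equi s _ x hx, ← e, ← mul_smul, ← map_mul, ← mul_assoc, ← map_mul, inv_mul_cancel,
        map_one, one_mul]
  · rw [p1 s τ z (hb s z _ (mem_ball_self one_pos) hz), c3 s τ z hz]
  · by_cases hy' : ∃ x, (C s).q x ≠ i s 0 ∧ y = A s x
    · obtain ⟨x, hx, rfl⟩ := hy'
      obtain ⟨v, hv, e⟩ : (C s).q x ∈ i s '' ball 0 1 := by_contra fun hn => hy ⟨x, hn, rfl⟩
      obtain ⟨k, rfl⟩ := prj_disc h e.symm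
      exact ⟨k, v, mem_ball_zero_iff.1 hv, fun τ => by rw [p1 s τ _ hx, c2],
        fun _ => by rw [h.comm s _ hx, e]⟩
    · obtain ⟨t, w, z, hz, rfl⟩ := h.cover hD y
      refine ⟨hd s w, 0, by simp, fun τ => ?_, fun h0 => absurd h0 (by simp)⟩
      rw [p2 s τ t w z hz hy', prj_col_half τ (by simp)]

end Pool.Agent.CSP
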