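import Pool.Agent.Lib.MP_436e1a_gt.Ctx
import Pool.Agent.Lib.MP_436e1a_gt.A.Radial

/-! Connected sums indexed by `Bool`, their tree coverings and the projections to the pieces. -/

open Set Monoid Metric

namespace Pool.Agent.CSP

/-- the symmetric form of `IsSum` -/
structure SumD (M : Bool → Mfd) (X : Mfd) (i : ∀ s, E 5 → M s) (a : ∀ s, M s → X) : Prop where
  disc : ∀ s, ∃ σ : ℝ, Emb σ (i s) univ
  emb : ∀ s, Emb 1 (a s) {i s 0}ᶜ
  cover : ∀ z, ∃ s x, x ≠ i s 0 ∧ a s x = z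
  glue : ∀ s t, s ≠ t → ∀ x, x ≠ i s 0 → ∀ y, y ≠ i t 0 →
    (a s x = a t y ↔ ∃ v : E 5, v ≠ 0 ∧ x = i s v ∧ y = i t (inv5 v))

/-- the pair `(M, N)` as a family -/
def pick (M N : Mfd) : Bool → Mfd
  | false => M
  | true => N

theorem IsSum.sumD {M N X : Mfd} (h : IsSum M N X) : ∃ i a, SumD (pick M N) X i a := by
  obtain ⟨i, j, a, b, hi, hj, ha, hb, hc, hg⟩ := h
  refine ⟨fun s => match s with | false => i | true => j,
    fun s => match s with | false => a | true => b, ?_, ?_, fun z => ?_, ?_⟩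
  · rintro (_ | _)
    exacts [⟨1, hi⟩, ⟨-1, hj⟩]
  · rintro (_ | _)
    exacts [ha, hb]
  · rcases hc z with h | h
    exacts [⟨false, h⟩, ⟨true, h⟩]
  · rintro (_ | _) (_ | _) hst x hx y hy
    · exact absurd rfl hst
    · exact hg x hx y hy
    · refine (eq_comm.trans (hg y hy x hx)).trans ⟨?_, ?_⟩
      · rintro ⟨v, hv, h1, h2⟩
        exact ⟨inv5 v, inv5_ne_zero hv, h2, h1.trans (congrArg i (inv5_inv5 v).symm)⟩
      · rintro ⟨v, hv, h1, h2⟩
        exact ⟨inv5 v, inv5_ne_zero hv, h2, h1.trans (congrArg j (inv5_inv5 v).symm)⟩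
    · exact absurd rfl hst

/-- the free product of the deck groups -/
abbrev FP {M : Bool → Mfd} (C : ∀ s, Cov (M s)) : Type := CoprodI fun s => (C s).G

/-- the inclusion of a factor -/
abbrev ofs {M : Bool → Mfd} {C : ∀ s, Cov (M s)} (s : Bool) (h : (C s).G) : FP C :=
  CoprodI.of (M := fun s => (C s).G) (i := s) h

/-- the covering of a connected sum with group the free product: `A s` embeds the covering of the
punctured piece `s`, the discs lift to `j s` -/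
structure SumC {M : Bool → Mfd} {X : Mfd} (i : ∀ s, E 5 → M s) (a : ∀ s, M s → X)
    (C : ∀ s, Cov (M s)) (Cx : Cov X) (φ : FP C ≃* Cx.G)
    (j : ∀ s, E 5 → (C s).Y) (A : ∀ s, (C s).Y → Cx.Y) : Prop where
  j_cont : ∀ s, Continuous (j s)
  j_q : ∀ s v, (C s).q (j s v) = i s v
  cont : ∀ s, ContinuousOn (A s) {z | (C s).q z ≠ i s 0}
  comm : ∀ s z, (C s).q z ≠ i s 0 → Cx.q (A s z) = a s ((C s).q z)
  equi : ∀ s (h : (C s).G) z, (C s).q z ≠ i s 0 → A s (h • z) = φ (ofs s h) • A s z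
  neck : ∀ s t, s ≠ t → ∀ v : E 5, v ≠ 0 → A s (j s v) = A t (j t (inv5 v))

/-- the first unit vector -/
noncomputable def ray : E 5 := !₂[1, 0, 0, 0, 0]

/-- the collapse of the ball of radius `1 / 2` to the point `τ • ray`; the identity for `‖v‖ ≥ 1` -/
noncomputable def col (τ : ℝ) (v : E 5) : E 5 :=
  max 0 (min 1 (2 * ‖v‖ - 1)) • v + ((1 - max 0 (min 1 (2 * ‖v‖ - 1))) * τ) • ray

/-- the projections of the tree covering to the coverings of the pieces -/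
structure Prj {M : Bool → Mfd} {X : Mfd} (i : ∀ s, E 5 → M s) (a : ∀ s, M s → X)
    (C : ∀ s, Cov (M s)) (Cx : Cov X) (φ : FP C ≃* Cx.G)
    (j : ∀ s, E 5 → (C s).Y) (A : ∀ s, (C s).Y → Cx.Y) (π : ∀ s, ℝ × Cx.Y → (C s).Y) : Prop where
  cont : ∀ s, Continuous (π s)
  equi : ∀ s τ (h : (C s).G) y, π s (τ, φ (ofs s h) • y) = h • π s (τ, y)
  core : ∀ s τ z, (C s).q z ∉ i s '' ball 0 1 → π s (τ, A s z) = z
  rest : ∀ s y, (¬ ∃ z, (C s).q z ∉ i s '' ball 0 1 ∧ y = A s z) →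
    ∃ (h : (C s).G) (v : E 5), ‖v‖ < 1 ∧ (∀ τ, π s (τ, y) = h • j s (col τ v)) ∧
      (1 / 2 < ‖v‖ → Cx.q y = a s (i s v))

end Pool.Agent.CSP
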