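import Pool.Agent.Lib.MP_436e1a_gt.C.Coc
import Pool.Agent.Lib.MP_436e1a_gt.C.SumDef
import Pool.Agent.Lib.MP_436e1a_gt.B.Emb

/-! Existence of the tree covering. -/

open scoped Topology
open Set Monoid Filter

namespace Pool.Agent.CSP

section piece

variable {M X : Mfd} {i : E 5 → M} {a : M → X} {C : Cov M}

theorem scov_free {g g' : C.G} {y : C.Y} (h : g • y = g' • y) : g = g' :=
  C.cov.isCancelSMul.right_cancel' _ _ _ h

theorem scov_map (ha : Emb 1 a {i 0}ᶜ) {z : C.Y} (hz : C.q z ≠ i 0) :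
    map (fun z => a (C.q z)) (𝓝 z) = 𝓝 (a (C.q z)) := by
  rw [← ha.map_nhds isOpen_compl_singleton hz,
    ← C.cov.isCoveringMap.isLocalHomeomorph.map_nhds_eq z, map_map]
  rfl

theorem scov_inj (z : C.Y) : ∃ W, IsOpen W ∧ z ∈ W ∧ InjOn C.q W := by
  obtain ⟨W, h1, h2⟩ := C.cov.isCoveringMap.isLocalHomeomorph.isLocallyInjective z
  exact ⟨W, h1, h2⟩

theorem scov_const {T : Type} [TopologicalSpace T] {f f' : T → C.Y} {g : T → C.G} {t : T}
    (hf : ContinuousAt f t) (hf' : ContinuousAt f' t) (h : ∀ᶠ u in 𝓝 t, f u = g u • f' u) :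
    ∀ᶠ u in 𝓝 t, g u = g t := by
  obtain ⟨W, h1, h2, h3⟩ := scov_inj (f t)
  have h4 : ContinuousAt (fun u => g t • f' u) t :=
    (C.cov.continuous_const_smul (g t)).continuousAt.comp hf'
  have h5 : g t • f' t ∈ W := h.self_of_nhds ▸ h2
  filter_upwards [h, hf (h1.mem_nhds h2), h4 (h1.mem_nhds h5)] with u e m m'
  refine scov_free (e.symm.trans (h3 m m' ?_))
  rw [e, C.cov.map_smul, C.cov.map_smul]

/-- a sheet over the punctured piece -/
def ScovSh (i : E 5 → M) (C : Cov M) : Type :=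
  {W : Set C.Y // IsOpen W ∧ (∀ z ∈ W, C.q z ≠ i 0) ∧ InjOn C.q W}

theorem scov_sheet {z : C.Y} (hz : C.q z ≠ i 0) : ∃ W : ScovSh i C, z ∈ W.1 := by
  obtain ⟨W, h1, h2, h3⟩ := scov_inj z
  exact ⟨⟨W ∩ C.q ⁻¹' {i 0}ᶜ, h1.inter (isOpen_compl_singleton.preimage C.cov.continuous),
    fun _ h => h.2, h3.mono inter_subset_left⟩, h2, hz⟩

theorem scov_open (ha : Emb 1 a {i 0}ᶜ) (W : ScovSh i C) :
    IsOpen ((fun z => a (C.q z)) '' W.1) := by
  rw [isOpen_iff_mem_nhds]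
  rintro _ ⟨z, hz, rfl⟩
  rw [← scov_map ha (W.2.2.1 z hz)]
  exact image_mem_map (W.2.1.mem_nhds hz)

theorem scov_sec (ha : Emb 1 a {i 0}ᶜ) (y : C.Y) (W : ScovSh i C) : ∃ σ : X → C.Y,
    ∀ z ∈ W.1, σ (a (C.q z)) = z ∧ ContinuousAt σ (a (C.q z)) := by
  have : Nonempty C.Y := ⟨y⟩
  have hi : InjOn (fun z => a (C.q z)) W.1 := fun z hz z' hz' e =>
    W.2.2.2 hz hz' (ha.2.1 (W.2.2.1 z hz) (W.2.2.1 z' hz') e)
  refine ⟨Function.invFunOn (fun z => a (C.q z)) W.1, fun z hz =>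
    ⟨hi.leftInvOn_invFunOn hz, ?_⟩⟩
  rw [ContinuousAt, hi.leftInvOn_invFunOn hz, ← scov_map ha (W.2.2.1 z hz), tendsto_map'_iff]
  refine tendsto_id.congr' ?_
  filter_upwards [W.2.1.mem_nhds hz] with w hw
  exact (hi.leftInvOn_invFunOn hw).symm

theorem scov_piece {σ : ℝ} (hi : Emb σ i univ) (ha : Emb 1 a {i 0}ᶜ) (C : Cov M) :
    ∃ (j : E 5 → C.Y) (e : X → C.Y) (c : C.Y → C.G), Continuous j ∧ (∀ v, C.q (j v) = i v) ∧
      (∀ z, C.q z ≠ i 0 → z = c z • e (a (C.q z))) ∧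
      ∀ v, v ≠ 0 → i v ≠ i 0 ∧ e (a (i v)) = j v ∧ ContinuousAt e (a (i v)) := by
  obtain ⟨e₀, he₀⟩ := C.cov.surjective (i 0)
  obtain ⟨j, ⟨-, hj⟩, -⟩ := C.cov.isCoveringMap.existsUnique_continuousMap_lifts
    ⟨i, continuousOn_univ.1 hi.continuousOn⟩ 0 e₀ he₀
  have hq : ∀ v, C.q (j v) = i v := congrFun hj
  have hne : ∀ v, v ≠ 0 → i v ≠ i 0 := fun v hv e => hv (hi.2.1 (mem_univ _) (mem_univ _) e)
  have h1 : ∀ x, ∃ y : C.Y, (∀ v, v ≠ 0 → a (i v) = x → y = j v) ∧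
      ∀ z, C.q z ≠ i 0 → a (C.q z) = x → C.q z = C.q y := by
    intro x
    by_cases h1 : ∃ v, v ≠ 0 ∧ a (i v) = x
    · obtain ⟨v, hv, rfl⟩ := h1
      exact ⟨j v, fun w hw e => congrArg j (hi.2.1 (mem_univ _) (mem_univ _)
        (ha.2.1 (hne v hv) (hne w hw) e.symm)), fun z hz e => (ha.2.1 hz (hne v hv) e).trans (hq v).symm⟩
    by_cases h2 : ∃ z, C.q z ≠ i 0 ∧ a (C.q z) = x
    · obtain ⟨z, hz, rfl⟩ := h2
      exact ⟨z, fun v hv e => (h1 ⟨v, hv, e⟩).elim, fun w hw e => ha.2.1 hw hz e⟩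
    · exact ⟨e₀, fun v hv e => (h1 ⟨v, hv, e⟩).elim, fun w hw e => (h2 ⟨w, hw, e⟩).elim⟩
  choose e e1 e2 using h1
  have h2 : ∀ z, ∃ g : C.G, C.q z ≠ i 0 → z = g • e (a (C.q z)) := by
    intro z
    by_cases hz : C.q z = i 0
    · exact ⟨1, fun h => (h hz).elim⟩
    obtain ⟨g, hg⟩ := C.cov.apply_eq_iff_mem_orbit.1 (e2 _ z hz rfl)
    exact ⟨g, fun _ => hg.symm⟩
  choose c hc using h2
  refine ⟨j, e, c, j.continuous, hq, hc, fun v hv => ⟨hne v hv, e1 _ v hv rfl, ?_⟩⟩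
  rw [ContinuousAt, e1 _ v hv rfl, ← ha.map_nhds isOpen_compl_singleton (hne v hv),
    ← hi.map_nhds isOpen_univ (mem_univ v), tendsto_map'_iff, tendsto_map'_iff]
  refine j.continuous.continuousAt.tendsto.congr' ?_
  filter_upwards [isOpen_compl_singleton.mem_nhds hv] with w hw
  exact (e1 _ w hw rfl).symm

end piece

/-- The covering is glued from the sheets of the coverings of the punctured pieces. -/
theorem exists_sumC {M : Bool → Mfd} {X : Mfd} {i : ∀ s, E 5 → M s} {a : ∀ s, M s → X}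
    (h : SumD M X i a) (C : ∀ s, Cov (M s)) : ∃ Cx φ j A, SumC i a C Cx φ j A := by
  choose j e c j1 j2 hc hn using fun s => scov_piece (h.disc s).choose_spec (h.emb s) (C s)
  choose σ hσ using fun s => scov_sec (h.emb s) (j s 0)
  let U : (Σ s, ScovSh (i s) (C s)) → Set X := fun α =>
    (fun z => a α.1 ((C α.1).q z)) '' α.2.1
  let g : (Σ s, ScovSh (i s) (C s)) → X → FP C := fun α x => ofs α.1 (c α.1 (σ α.1 α.2 x))
  have hU : ∀ α, IsOpen (U α) := fun α => scov_open (h.emb α.1) α.2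
  have hcov : ∀ x, ∃ α, x ∈ U α := by
    intro x
    obtain ⟨s, m, hm, rfl⟩ := h.cover x
    obtain ⟨z, rfl⟩ := (C s).cov.surjective m
    obtain ⟨W, hW⟩ := scov_sheet hm
    exact ⟨⟨s, W⟩, z, hW, rfl⟩
  have h1 : ∀ s W, ∀ x ∈ U ⟨s, W⟩, σ s W x = c s (σ s W x) • e s x ∧ ContinuousAt (σ s W) x := by
    rintro s W _ ⟨z, hz, rfl⟩
    refine ⟨?_, (hσ s W z hz).2⟩
    rw [(hσ s W z hz).1]
    exact hc s z (W.2.2.1 z hz)
  have h2 : ∀ α (v : E 5), v ≠ 0 → a α.1 (i α.1 v) ∈ U α →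
      ∀ᶠ y in 𝓝 (a α.1 (i α.1 v)), g α y = g α (a α.1 (i α.1 v)) := by
    rintro ⟨s, W⟩ v hv hx
    refine (scov_const (g := fun y => c s (σ s W y)) (h1 s W _ hx).2 (hn s v hv).2.2 ?_).mono
      fun y hy => congrArg (ofs s) hy
    filter_upwards [(hU _).mem_nhds hx] with y hy using (h1 s W y hy).1
  obtain ⟨Y, tY, aY, q, S, hq, S1, S2, S3⟩ := exists_cov_of_cocycle U hU hcov
    (fun α β x => g α x * (g β x)⁻¹) (by
      rintro ⟨s, W⟩ ⟨t, W'⟩ x ⟨hx, hx'⟩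
      by_cases hst : s = t
      · subst hst
        refine (scov_const (g := fun y => c s (σ s W y) * (c s (σ s W' y))⁻¹) (h1 s W _ hx).2
          (h1 s W' _ hx').2 ?_).mono fun y hy => ?_
        · filter_upwards [(hU _).mem_nhds hx, (hU _).mem_nhds hx'] with y hy hy'
          rw [mul_smul, inv_smul_eq_iff.2 (h1 s W' y hy').1]
          exact (h1 s W y hy).1
        · simpa only [map_mul, map_inv] using congrArg (ofs s) hy
      · obtain ⟨z, hz, e1⟩ := id hx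
        obtain ⟨z', hz', e2⟩ := id hx'
        obtain ⟨v, hv, e3, e4⟩ := (h.glue s t hst _ (W.2.2.1 z hz) _ (W'.2.2.1 z' hz')).1
          (e1.trans e2.symm)
        have e5 : a s (i s v) = x := e3 ▸ e1
        have e6 : a t (i t (inv5 v)) = x := e4 ▸ e2
        have h3 := h2 ⟨s, W⟩ v hv (e5.symm ▸ hx)
        have h4 := h2 ⟨t, W'⟩ _ (inv5_ne_zero hv) (e6.symm ▸ hx')
        simp only [e5, e6] at h3 h4
        filter_upwards [h3, h4] with y e7 e8
        rw [e7, e8])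
    (fun _ _ _ _ _ _ _ => by group)
  choose ix hix using hcov
  let A : ∀ s, (C s).Y → Y := fun s z =>
    ofs s (c s z) • (g (ix (a s ((C s).q z))) (a s ((C s).q z)))⁻¹ •
      S (ix (a s ((C s).q z))) (a s ((C s).q z))
  refine ⟨{ G := FP C, Y := Y, q := q, cov := hq }, MulEquiv.refl _, j, A, j1, j2,
    fun s z hz => ?_, fun s z hz => ?_, fun s k z hz => ?_, fun s t hst v hv => ?_⟩
  · obtain ⟨W, hW⟩ := scov_sheet hz
    have h3 : ContinuousAt (fun z => S ⟨s, W⟩ (a s ((C s).q z))) z :=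
      ContinuousAt.comp (f := fun z => a s ((C s).q z))
        ((S1 ⟨s, W⟩).continuousAt ((hU _).mem_nhds ⟨z, hW, rfl⟩)) (scov_map (h.emb s) hz).le
    refine (h3.congr ?_).continuousWithinAt
    filter_upwards [W.2.1.mem_nhds hW] with w hw
    rw [S3 ⟨s, W⟩ (ix _) _ ⟨⟨w, hw, rfl⟩, hix _⟩, mul_smul]
    simp only [A, g, (hσ s W w hw).1]
  · exact (hq.map_smul _).trans ((hq.map_smul _).trans (S2 _ _ (hix _)))
  · have h3 : c s (k • z) = k * c s z := by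
      have h4 := hc s (k • z) (by rwa [(C s).cov.map_smul])
      rw [(C s).cov.map_smul] at h4
      refine scov_free (h4.symm.trans ?_)
      rw [mul_smul, ← hc s z hz]
    show A s (k • z) = ofs s k • A s z
    simp only [A, h3, (C s).cov.map_smul, map_mul, mul_smul]
  · have h3 : ∀ s (v : E 5), v ≠ 0 → c s (j s v) = 1 := by
      intro s v hv
      have h4 := hc s (j s v) (by rw [j2]; exact (hn s v hv).1)
      rw [j2, (hn s v hv).2.1] at h4
      exact scov_free (h4.symm.trans (one_smul _ _).symm)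
    have h4 : a s (i s v) = a t (i t (inv5 v)) :=
      (h.glue s t hst _ (hn s v hv).1 _ (hn t _ (inv5_ne_zero hv)).1).2 ⟨v, hv, rfl, rfl⟩
    simp only [A, h3 s v hv, h3 t _ (inv5_ne_zero hv), j2, h4, map_one]

end Pool.Agent.CSP
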