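import Pool.Agent.Lib.MP_436e1a_gt.C.SumDef
import Pool.Agent.Lib.MP_436e1a_gt.J.Glue
import Pool.Agent.Lib.MP_436e1a_gt.B.AmbEx
import Pool.Agent.Lib.MP_436e1a_gt.D.Conn
import Pool.Agent.Lib.MP_436e1a_gt.A.TubeL

/-! Connected sums exist. -/

open scoped ContDiff Topology
open Set Metric

namespace Pool.Agent.CSP

theorem exists_disc_in (M : Mfd) : ∃ i : E 5 → M, Emb 1 i univ := by
  obtain ⟨x⟩ : Nonempty M := inferInstance
  obtain ⟨r, hr, hs⟩ := Metric.isOpen_iff.1 (chartAt (E 5) x).open_target _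
    (mem_chart_target (E 5) x)
  obtain ⟨ν, n1, n2, n3, n4, -⟩ := exists_compress (half_pos hr) (half_lt_self hr)
  have h1 : Emb 1 (fun v => chartAt (E 5) x x + ν v) univ :=
    emb_of_contDiffOn (contDiff_const.add n1).contDiffOn (fun v _ w _ e => n2 (add_left_cancel e))
      fun v _ => by rw [one_mul, fderiv_const_add]; exact n3 v
  have := (M.emb_chart (chart_mem_atlas (E 5) x)).2.comp h1 (chartAt (E 5) x).open_target
    isOpen_univ fun v _ => hs (by simpa using n4 v)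
  exact ⟨_, mul_one (1 : ℝ) ▸ this⟩

variable {M : Bool → Mfd} {i : ∀ s, E 5 → M s} {X : Type} {a : ∀ s, M s → X}

/-- the glued set carries a manifold structure -/
theorem sx_glue (hi : ∀ s, Emb (if s then -1 else 1) (i s) univ)
    (h1 : ∀ s, InjOn (a s) {i s 0}ᶜ) (h2 : ∀ z, ∃ s x, x ≠ i s 0 ∧ a s x = z)
    (h3 : ∀ s t, s ≠ t → ∀ x, x ≠ i s 0 → ∀ y, y ≠ i t 0 →
      (a s x = a t y ↔ ∃ v : E 5, v ≠ 0 ∧ x = i s v ∧ y = i t (inv5 v))) :
    ∃ (P : Mfd) (e : X ≃ P), ∀ s, Emb 1 (fun x => e (a s x)) {i s 0}ᶜ := by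
  classical
  have inj : ∀ s, Function.Injective (i s) := fun s => injOn_univ.1 (hi s).2.1
  have ci : ∀ s, Continuous (i s) := fun s => continuousOn_univ.1 (hi s).continuousOn
  let ch : ∀ p : Σ s, M s, OpenPartialHomeomorph (M p.1) (E 5) := fun p => chartAt (E 5) p.2
  let W : ∀ p : Σ s, M s, Set (M p.1) → Set (E 5) := fun p U => (ch p).target ∩ (ch p).symm ⁻¹' U
  have hW : ∀ p U, IsOpen U → IsOpen (W p U) := fun p U => (ch p).isOpen_inter_preimage_symm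
  have mW : ∀ s (x : M s) U, x ∈ U → ch ⟨s, x⟩ x ∈ W ⟨s, x⟩ U ∧ (ch ⟨s, x⟩).symm (ch ⟨s, x⟩ x) = x :=
    fun s x U hx => by
      have := (ch ⟨s, x⟩).left_inv (mem_chart_source (E 5) x)
      exact ⟨⟨mem_chart_target (E 5) x, mem_preimage.2 (mem_of_eq_of_mem this hx)⟩, this⟩
  have tr : ∀ s t (x : M s) (y : M t), x ≠ i s 0 → y ≠ i t 0 → a s x = a t y →
      ∃ (N : Set (M s)) (T : M s → M t), IsOpen N ∧ x ∈ N ∧ Emb 1 T N ∧
        ∀ z ∈ N, z ≠ i s 0 ∧ T z ≠ i t 0 ∧ a t (T z) = a s z := by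
    intro s t x y hx hy e
    by_cases hst : s = t
    · subst hst
      exact ⟨_, id, isOpen_compl_singleton, hx, emb_id _, fun z hz => ⟨hz, hz, rfl⟩⟩
    obtain ⟨v, hv, rfl, -⟩ := (h3 s t hst x hx y hy).1 e
    obtain ⟨k, hk, k1, -⟩ := ((hi s).mono (subset_univ {0}ᶜ)).exists_inv isOpen_compl_singleton
    have hN := (hi s).isOpen_image isOpen_univ isOpen_compl_singleton (subset_univ {0}ᶜ)
    have e1 : Emb (-1) inv5 {0}ᶜ := emb_of_contDiffOn contDiffOn_inv5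
      (Function.LeftInverse.injective inv5_inv5).injOn fun v hv => by linarith [det_inv5 hv]
    have e2 := (hi t).comp (e1.comp hk isOpen_compl_singleton hN (by
      rintro _ ⟨w, hw, rfl⟩; rwa [k1 w hw])) isOpen_univ hN (mapsTo_univ _ _)
    refine ⟨_, i t ∘ inv5 ∘ k, hN, ⟨v, hv, rfl⟩, by
      cases s <;> cases t <;> first | exact absurd rfl hst | simpa using e2, ?_⟩
    rintro _ ⟨w, hw, rfl⟩
    have n1 : i s w ≠ i s 0 := fun e => hw (inj s e)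
    have n2 : i t (inv5 w) ≠ i t 0 := fun e => inv5_ne_zero hw (inj t e)
    simp only [Function.comp_apply, k1 w hw]
    exact ⟨n1, n2, ((h3 s t hst _ n1 _ n2).2 ⟨w, hw, rfl, rfl⟩).symm⟩
  have sp : ∀ s t (x : M s) (y : M t), x ≠ i s 0 → y ≠ i t 0 → a s x ≠ a t y →
      ∃ U V, IsOpen U ∧ IsOpen V ∧ U ⊆ {i s 0}ᶜ ∧ V ⊆ {i t 0}ᶜ ∧ a s x ∈ a s '' U ∧
        a t y ∈ a t '' V ∧ Disjoint (a s '' U) (a t '' V) := by
    have same : ∀ s (x y : M s), x ≠ i s 0 → y ≠ i s 0 → a s x ≠ a s y →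
        ∃ U V, IsOpen U ∧ IsOpen V ∧ U ⊆ {i s 0}ᶜ ∧ V ⊆ {i s 0}ᶜ ∧ x ∈ U ∧ y ∈ V ∧
          Disjoint (a s '' U) (a s '' V) := fun s x y hx hy h => by
      obtain ⟨U, V, hU, hV, mx, my, hd⟩ := t2_separation fun e : x = y => h (congrArg _ e)
      refine ⟨_, _, hU.inter isOpen_compl_singleton, hV.inter isOpen_compl_singleton,
        inter_subset_right, inter_subset_right, ⟨mx, hx⟩, ⟨my, hy⟩, disjoint_left.2 ?_⟩
      rintro _ ⟨u, hu, rfl⟩ ⟨v, hv, e⟩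
      exact disjoint_left.1 hd hu.1 (h1 s hv.2 hu.2 e ▸ hv.1)
    have move : ∀ s t (x : M s) (y : M t), x ≠ i s 0 → a s x = a t y → y ≠ i t 0 → ∀ V, IsOpen V →
        y ∈ V → ∃ U, IsOpen U ∧ U ⊆ {i s 0}ᶜ ∧ x ∈ U ∧ a s '' U ⊆ a t '' V := by
      intro s t x y hx e hy V hV my
      obtain ⟨N, T, hN, mx, hT, hz⟩ := tr s t x y hx hy e
      refine ⟨_, hT.continuousOn.isOpen_inter_preimage hN hV, fun z h => (hz z h.1).1,
        ⟨mx, mem_preimage.2 (mem_of_eq_of_mem (h1 t (hz x mx).2.1 hy ((hz x mx).2.2.trans e)) my)⟩, ?_⟩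
      rintro _ ⟨z, h, rfl⟩
      exact ⟨_, h.2, (hz z h.1).2.2⟩
    intro s t x y hx hy h
    by_cases e1 : ∃ x', x' ≠ i t 0 ∧ a s x = a t x'
    · obtain ⟨x', hx', e⟩ := e1
      obtain ⟨U, V, hU, hV, sU, sV, mx, my, hd⟩ := same t x' y hx' hy (e ▸ h)
      obtain ⟨U', k1, k2, k3, k4⟩ := move s t x x' hx e hx' U hU mx
      exact ⟨U', V, k1, hV, k2, sV, ⟨x, k3, rfl⟩, ⟨y, my, rfl⟩, hd.mono_left k4⟩
    by_cases e2 : ∃ y', y' ≠ i s 0 ∧ a t y = a s y'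
    · obtain ⟨y', hy', e⟩ := e2
      obtain ⟨U, V, hU, hV, sU, sV, mx, my, hd⟩ := same s x y' hx hy' (e ▸ h)
      obtain ⟨V', k1, k2, k3, k4⟩ := move t s y y' hy e hy' V hV my
      exact ⟨U, V', hU, k1, sU, k2, ⟨x, mx, rfl⟩, ⟨y, k3, rfl⟩, hd.mono_right k4⟩
    have hst : s ≠ t := by
      rintro rfl
      exact e1 ⟨x, hx, rfl⟩
    have out : ∀ s t (x : M s), s ≠ t → x ≠ i s 0 → (¬ ∃ x', x' ≠ i t 0 ∧ a s x = a t x') →
        x ∉ i s '' closedBall 0 1 := by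
      rintro s t _ hst hx h ⟨v, -, rfl⟩
      have hv : v ≠ 0 := fun e => hx (congrArg _ e)
      have n2 : i t (inv5 v) ≠ i t 0 := fun e => inv5_ne_zero hv (inj t e)
      exact h ⟨_, n2, (h3 s t hst _ hx _ n2).2 ⟨v, hv, rfl, rfl⟩⟩
    have sub : ∀ s, (i s '' closedBall 0 1)ᶜ ⊆ {i s 0}ᶜ := fun s =>
      compl_subset_compl.2 (singleton_subset_iff.2 ⟨0, mem_closedBall_self zero_le_one, rfl⟩)
    have op : ∀ s, IsOpen (i s '' closedBall 0 1)ᶜ := fun s =>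
      ((isCompact_closedBall _ _).image (ci s)).isClosed.isOpen_compl
    refine ⟨_, _, op s, op t, sub s, sub t, ⟨x, out s t x hst hx e1, rfl⟩,
      ⟨y, out t s y hst.symm hy e2, rfl⟩, disjoint_left.2 ?_⟩
    rintro _ ⟨u, hu, rfl⟩ ⟨w, hw, e⟩
    obtain ⟨v, hv, rfl, rfl⟩ := (h3 s t hst _ (sub s hu) _ (sub t hw)).1 e.symm
    rcases le_total ‖v‖ 1 with l | l
    · exact hu ⟨v, mem_closedBall_zero_iff.2 l, rfl⟩
    · exact hw ⟨_, mem_closedBall_zero_iff.2 (by rw [norm_inv5]; exact inv_le_one_of_one_le₀ l), rfl⟩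
  have H := exists_glue (fun (p : Σ s, M s) v => a p.1 ((ch p).symm v))
    (fun p => W p {i p.1 0}ᶜ) (fun p => hW p _ isOpen_compl_singleton)
    (fun p v hv w hw e => (ch p).symm.injOn hv.1 hw.1 (h1 _ hv.2 hw.2 e))
    (fun z => by
      obtain ⟨s, x, hx, rfl⟩ := h2 z
      exact ⟨⟨s, x⟩, _, (mW s x {i s 0}ᶜ hx).1, congrArg _ (mW s x {i s 0}ᶜ hx).2⟩) ?_ ?_ ?_ ?_ ?_
  · obtain ⟨P, e, he⟩ := H
    refine ⟨P, e, fun s => emb_of_local (e.injective.comp_injOn (h1 s)) fun x hx => ?_⟩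
    have hN := (ch ⟨s, x⟩).open_source.inter (isOpen_compl_singleton (x := i s 0))
    refine ⟨_, _, hN, ⟨mem_chart_source (E 5) x, hx⟩, mul_one (1 : ℝ) ▸ (he ⟨s, x⟩).comp
      (((M s).emb_chart (chart_mem_atlas (E 5) x)).1.mono inter_subset_left)
      (hW _ _ isOpen_compl_singleton) hN fun z hz => ⟨(ch ⟨s, x⟩).map_source hz.1,
        mem_preimage.2 (mem_of_eq_of_mem ((ch ⟨s, x⟩).left_inv hz.1) hz.2)⟩, fun z hz => ?_⟩
    exact congrArg (fun w => e (a s w)) ((ch ⟨s, x⟩).left_inv hz.1).symm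
  · rintro p p' v hv ⟨w, hw, e⟩
    obtain ⟨N, T, hN, hx, hT, hz⟩ := tr _ _ _ _ hv.2 hw.2 e.symm
    have hO := hT.continuousOn.isOpen_inter_preimage hN (ch p').open_source
    have hx' : T ((ch p).symm v) = (ch p').symm w := h1 _ (hz _ hx).2.1 hw.2 ((hz _ hx).2.2.trans e.symm)
    have e1 := ((M p'.1).emb_chart (chart_mem_atlas (E 5) p'.2)).1.comp ((hT.mono
      inter_subset_left).comp (((M p.1).emb_chart (chart_mem_atlas (E 5) p.2)).2.mono
        inter_subset_left) hO (hW p _ hO) fun u hu => hu.2) (ch p').open_source (hW p _ hO)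
        fun u hu => hu.2.2
    have hv' : v ∈ W p (N ∩ T ⁻¹' (ch p').source) :=
      ⟨hv.1, hx, mem_preimage.2 (mem_of_eq_of_mem hx' ((ch p').map_target hw.1))⟩
    refine ⟨_, _, hW p _ hO, hv', fun u hu => ⟨hu.1, (hz _ hu.2.1).1⟩,
      contMDiffOn_iff_contDiffOn.1 e1.1, fun u hu => ⟨(ch p').map_source hu.2.2,
        mem_preimage.2 (mem_of_eq_of_mem ((ch p').left_inv hu.2.2) (hz _ hu.2.1).2.1)⟩,
      fun u hu => (congrArg _ ((ch p').left_inv hu.2.2)).trans (hz _ hu.2.1).2.2, ?_⟩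
    simpa [jac_eq_det] using e1.2.2 v hv'
  · intro z z' hz
    obtain ⟨s, x, hx, rfl⟩ := h2 z
    obtain ⟨t, y, hy, rfl⟩ := h2 z'
    obtain ⟨U, V, hU, hV, sU, sV, ⟨x', mx, ex⟩, ⟨y', my, ey⟩, hd⟩ := sp s t x y hx hy hz
    refine ⟨⟨s, x'⟩, ⟨t, y'⟩, W ⟨s, x'⟩ U, W ⟨t, y'⟩ V, hW _ _ hU, hW _ _ hV, fun u hu => ⟨hu.1, sU hu.2⟩,
      fun u hu => ⟨hu.1, sV hu.2⟩, ⟨_, (mW s x' U mx).1, (congrArg _ (mW s x' U mx).2).trans ex⟩,
      ⟨_, (mW t y' V my).1, (congrArg _ (mW t y' V my).2).trans ey⟩, hd.mono ?_ ?_⟩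
    all_goals
      rintro _ ⟨u, hu, rfl⟩
      exact ⟨_, hu.2, rfl⟩
  · have hK : ∀ s, IsCompact (i s '' ball 0 1)ᶜ := fun s =>
      ((hi s).isOpen_image isOpen_univ isOpen_ball (subset_univ _)).isClosed_compl.isCompact
    have loc : ∀ s (x : M s), ∃ K : Set (M s), IsCompact K ∧ K ⊆ (ch ⟨s, x⟩).source ∩ {i s 0}ᶜ ∧
        (x ≠ i s 0 → K ∈ 𝓝 x) := fun s x => by
      by_cases hx : x = i s 0
      · exact ⟨∅, isCompact_empty, empty_subset _, fun h => (h hx).elim⟩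
      obtain ⟨K, k1, k2, k3⟩ := local_compact_nhds (((ch ⟨s, x⟩).open_source.inter
        isOpen_compl_singleton).mem_nhds ⟨mem_chart_source (E 5) x, hx⟩)
      exact ⟨K, k3, k2, fun _ => k1⟩
    choose K k1 k2 k3 using loc
    have n0 : ∀ s, ∀ x ∈ (i s '' ball 0 1)ᶜ, x ≠ i s 0 := fun s x hx e =>
      hx ⟨0, mem_ball_self one_pos, e.symm⟩
    choose T t1 t2 using fun s => (hK s).elim_nhds_subcover (K s) fun x hx => k3 s x (n0 s x hx)
    have t3 : ∀ s, ∀ x ∈ (i s '' ball 0 1)ᶜ, ∃ p ∈ Finset.univ.sigma T,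
        a s x ∈ (fun v => a p.1 ((ch p).symm v)) '' (ch p '' K p.1 p.2) := fun s x hx => by
      obtain ⟨y, hy, h⟩ := mem_iUnion₂.1 (t2 s hx)
      exact ⟨⟨s, y⟩, Finset.mem_sigma.2 ⟨Finset.mem_univ _, hy⟩, _, ⟨x, h, rfl⟩,
        congrArg _ ((ch ⟨s, y⟩).left_inv (k2 s y h).1)⟩
    refine ⟨Finset.univ.sigma T, fun p => ch p '' K p.1 p.2, fun p _ =>
      ⟨(k1 _ _).image_of_continuousOn ((ch p).continuousOn.mono fun z hz => (k2 _ _ hz).1), ?_⟩,
      fun z => ?_⟩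
    · rintro _ ⟨z, hz, rfl⟩
      exact ⟨(ch p).map_source (k2 _ _ hz).1,
        mem_preimage.2 (mem_of_eq_of_mem ((ch p).left_inv (k2 _ _ hz).1) (k2 _ _ hz).2)⟩
    obtain ⟨s, x, hx, rfl⟩ := h2 z
    by_cases h : x ∈ i s '' ball 0 1
    · obtain ⟨v, hv, rfl⟩ := h
      have v0 : v ≠ 0 := fun e => hx (congrArg _ e)
      rw [(h3 s (!s) (by simp) _ hx _ fun e => inv5_ne_zero v0 (inj _ e)).2 ⟨v, v0, rfl, rfl⟩]
      refine t3 _ _ fun ⟨w, hw, e⟩ => ?_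
      rw [inj _ e, mem_ball_zero_iff, norm_inv5] at hw
      exact (one_lt_inv₀ (norm_pos_iff.2 v0)).2 (mem_ball_zero_iff.1 hv) |>.not_gt hw
    · exact t3 s x h
  · exact ⟨a false (i false 0)⟩
  · intro S hS hS'
    have op : ∀ S : Set X, (∀ p, IsOpen (W p {i p.1 0}ᶜ ∩ (fun v => a p.1 ((ch p).symm v)) ⁻¹' S)) →
        ∀ s, IsOpen ({i s 0}ᶜ ∩ a s ⁻¹' S) := fun S hS s => isOpen_iff_mem_nhds.2 fun x hx => by
      refine Filter.mem_of_superset (((ch ⟨s, x⟩).isOpen_inter_preimage (hS ⟨s, x⟩)).mem_nhds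
        ⟨mem_chart_source (E 5) x, (mW s x _ hx.1).1,
          mem_preimage.2 (mem_of_eq_of_mem (congrArg _ (mW s x _ hx.1).2) hx.2)⟩) fun z hz => ?_
      have := (ch ⟨s, x⟩).left_inv hz.1
      exact ⟨this ▸ hz.2.1.2, mem_preimage.2 (this ▸ hz.2.2)⟩
    have alt : ∀ s, (∀ x, x ≠ i s 0 → a s x ∈ S) ∨ ∀ x, x ≠ i s 0 → a s x ∉ S := fun s => by
      obtain ⟨A⟩ := exists_amb (M s)
      exact ((pathConn_compl A (Z := {i s 0}) (by
        rw [image_singleton]; exact (thin_singleton _).of_le (by norm_num))).isConnected.isPreconnected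
        |>.subset_or_subset (op S hS s) (op Sᶜ hS' s) (disjoint_left.2 fun x h h' => h'.2 h.2)
        fun x hx => (em (a s x ∈ S)).imp (fun h => ⟨hx, h⟩) fun h => ⟨hx, h⟩).imp
        (fun h x hx => (h hx).2) fun h x hx => (h hx).2
    have r0 : ray ≠ 0 := fun e => by simpa [ray] using congrArg (fun v : E 5 => v 0) e
    have n1 : i false ray ≠ i false 0 := fun e => r0 (inj _ e)
    have n2 : i true (inv5 ray) ≠ i true 0 := fun e => inv5_ne_zero r0 (inj _ e)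
    have e := (h3 false true (by simp) _ n1 _ n2).2 ⟨ray, r0, rfl, rfl⟩
    rcases alt false with h | h <;> rcases alt true with h' | h'
    · refine Or.inr (eq_univ_of_forall fun z => ?_)
      obtain ⟨_ | _, x, hx, rfl⟩ := h2 z
      exacts [h x hx, h' x hx]
    · exact (h' _ n2 (e ▸ h _ n1)).elim
    · exact (h _ n1 (e ▸ h' _ n2)).elim
    · refine Or.inl (eq_empty_of_forall_notMem fun z => ?_)
      obtain ⟨_ | _, x, hx, rfl⟩ := h2 z
      exacts [h x hx, h' x hx]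

theorem exists_sum (M N : Mfd) : ∃ X, IsSum M N X := by
  classical
  obtain ⟨i, hi⟩ := exists_disc_in M
  obtain ⟨j₀, hj₀⟩ := exists_disc_in N
  have hj : Emb (-1) (j₀ ∘ rfl5) univ := by
    simpa using hj₀.comp (emb_of_contDiffOn (s := -1) contDiff_rfl5.contDiffOn
      (Function.LeftInverse.injective rfl5_rfl5).injOn fun v _ => by rw [det_rfl5]; norm_num)
      isOpen_univ isOpen_univ (mapsTo_univ _ _)
  generalize j₀ ∘ rfl5 = j at hj
  have ii : Function.Injective i := injOn_univ.1 hi.2.1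
  have ij : Function.Injective j := injOn_univ.1 hj.2.1
  let X := {z : M ⊕ N // z ≠ .inl (i 0) ∧ ∀ v, z ≠ .inr (j v)}
  have r0 : ray ≠ 0 := fun e => by simpa [ray] using congrArg (fun v : E 5 => v 0) e
  let a : M → X := fun x => if h : x = i 0 then ⟨.inl (i ray), by simpa using fun e => r0 (ii e)⟩
    else ⟨.inl x, by simpa using h⟩
  let b : N → X := fun y => if h : ∃ v, j v = y then a (i (inv5 h.choose)) else
    ⟨.inr y, by simpa [eq_comm] using h⟩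
  have ea : ∀ x, x ≠ i 0 → (a x).1 = .inl x := fun x hx => by simp only [a, dif_neg hx]
  have eb : ∀ v, b (j v) = a (i (inv5 v)) := fun v => by
    have h : ∃ w, j w = j v := ⟨v, rfl⟩
    simp only [b, dif_pos h, ij h.choose_spec]
  have eb' : ∀ y, (¬ ∃ v, j v = y) → (b y).1 = .inr y := fun y hy => by simp only [b, dif_neg hy]
  have ia : InjOn a {i 0}ᶜ := fun x hx y hy e =>
    Sum.inl_injective ((ea x hx).symm.trans ((congrArg _ e).trans (ea y hy)))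
  have ni : ∀ v, j v ≠ j 0 → i (inv5 v) ≠ i 0 := fun v h e =>
    inv5_ne_zero (fun e' => h (congrArg j e')) (ii e)
  have gl : ∀ x, x ≠ i 0 → ∀ y, y ≠ j 0 →
      (a x = b y ↔ ∃ v : E 5, v ≠ 0 ∧ x = i v ∧ y = j (inv5 v)) := fun x hx y hy => by
    refine ⟨fun e => ?_, ?_⟩
    · by_cases h : ∃ v, j v = y
      · obtain ⟨v, rfl⟩ := h
        exact ⟨inv5 v, fun e => ni v hy (congrArg i e), ia hx (ni v hy) (e.trans (eb v)),
          by rw [inv5_inv5]⟩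
      · simpa using (ea x hx).symm.trans ((congrArg _ e).trans (eb' y h))
    · rintro ⟨v, -, rfl, rfl⟩
      rw [eb, inv5_inv5]
  have ib : InjOn b {j 0}ᶜ := fun x hx y hy e => by
    by_cases h : ∃ v, j v = x
    · obtain ⟨v, rfl⟩ := h
      obtain ⟨w, -, e1, rfl⟩ := (gl _ (ni v hx) y hy).1 ((eb v).symm.trans e)
      rw [← ii e1, inv5_inv5]
    by_cases h' : ∃ v, j v = y
    · obtain ⟨v, rfl⟩ := h'
      simpa using (eb' x h).symm.trans ((congrArg _ (e.trans (eb v))).trans (ea _ (ni v hy)))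
    · exact Sum.inr_injective ((eb' x h).symm.trans ((congrArg _ e).trans (eb' y h')))
  have cv : ∀ z : X, (∃ x, x ≠ i 0 ∧ a x = z) ∨ ∃ y, y ≠ j 0 ∧ b y = z := by
    rintro ⟨x | y, h⟩
    · have hx : x ≠ i 0 := fun e => h.1 (congrArg _ e)
      exact Or.inl ⟨x, hx, Subtype.ext (ea x hx)⟩
    · exact Or.inr ⟨y, fun e => h.2 0 (congrArg _ e),
        Subtype.ext (eb' y fun ⟨v, e⟩ => h.2 v (congrArg _ e.symm))⟩
  obtain ⟨P, e, he⟩ := sx_glue (M := pick M N) (i := fun s => match s with | false => i | true => j)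
    (a := fun s => match s with | false => a | true => b)
    (by rintro (_ | _); exacts [hi, hj]) (by rintro (_ | _); exacts [ia, ib])
    (fun z => (cv z).elim (fun h => ⟨false, h⟩) fun h => ⟨true, h⟩) (by
      rintro (_ | _) (_ | _) hst x hx y hy
      · exact absurd rfl hst
      · exact gl x hx y hy
      · refine (eq_comm.trans (gl y hy x hx)).trans ⟨?_, ?_⟩
        · rintro ⟨v, hv, h1, h2⟩
          exact ⟨inv5 v, inv5_ne_zero hv, h2, h1.trans (congrArg i (inv5_inv5 v).symm)⟩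
        · rintro ⟨v, hv, h1, h2⟩
          exact ⟨inv5 v, inv5_ne_zero hv, h2, h1.trans (congrArg j (inv5_inv5 v).symm)⟩
      · exact absurd rfl hst)
  refine ⟨P, i, j, _, _, hi, hj, he false, he true, fun z => ?_, fun x hx y hy =>
    e.injective.eq_iff.trans (gl x hx y hy)⟩
  obtain ⟨z, rfl⟩ := e.surjective z
  exact (cv z).imp (fun ⟨x, hx, h⟩ => ⟨x, hx, congrArg e h⟩) fun ⟨x, hx, h⟩ => ⟨x, hx, congrArg e h⟩

end Pool.Agent.CSP
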