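import Pool.Agent.Lib.MP_436e1a_gt.C.Coc

/-! The universal covering. -/

open scoped Topology
open Set

namespace Pool.Agent.CSP

open CategoryTheory in
/-- The fundamental groupoid of a path connected space, flattened to a group. -/
theorem univ_lp (X : Type) [TopologicalSpace X] [PathConnectedSpace X] :
    ∃ (G : Type) (_ : Group G) (l : ∀ {x y : X}, Path x y → G),
      (∀ x y z (γ : Path x y) (η : Path y z), l (γ.trans η) = l γ * l η) ∧
      (∀ x y (γ η : Path x y), l γ = l η ↔ γ.Homotopic η) ∧ ∀ x y g, ∃ γ : Path x y, l γ = g := by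
  obtain ⟨o⟩ : Nonempty X := inferInstance
  let ar : ∀ {x y : X}, Path x y → (FundamentalGroupoid.mk x ⟶ FundamentalGroupoid.mk y) :=
    fun p => FundamentalGroupoid.fromPath (Path.Homotopic.Quotient.mk p)
  let om := fun x => ar (PathConnectedSpace.somePath o x)
  let lp : ∀ {x y : X}, Path x y → (FundamentalGroupoid.mk o ⟶ FundamentalGroupoid.mk o) :=
    fun {x y} p => om y ≫ inv (ar p) ≫ inv (om x)
  refine ⟨FundamentalGroup X o, inferInstance, lp, fun x y z γ η => ?_, fun x y γ η => ?_,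
    fun x y g => ?_⟩
  · have : ar (γ.trans η) = ar γ ≫ ar η := rfl
    rw [End.mul_def]
    simp [lp, this]
  · rw [← Path.Homotopic.Quotient.eq]
    change lp γ = lp η ↔ ar γ = ar η
    simp only [lp]
    rw [cancel_epi, cancel_mono, IsIso.inv_eq_inv]
  · let g' : FundamentalGroupoid.mk o ⟶ FundamentalGroupoid.mk o := g
    obtain ⟨p, hp⟩ : ∃ p, ar p = inv (inv (om y) ≫ g' ≫ om x) :=
      Path.Homotopic.Quotient.mk_surjective _
    refine ⟨p, ?_⟩
    change lp p = g'
    simp [lp, hp]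

/-- Subdivision of a path. -/
theorem univ_sub {Y ι : Type} [TopologicalSpace Y] (U : ι → Set Y) (hU : ∀ i, IsOpen (U i))
    (hc : ∀ x, ∃ i, x ∈ U i) (P : ∀ {x y : Y}, Path x y → Prop)
    (h : ∀ i x y (γ : Path x y), (∀ t, γ t ∈ U i) → P γ)
    (ht : ∀ x y z (γ : Path x y) (η : Path y z) (ζ : Path x z), (γ.trans η).Homotopic ζ → P γ →
      P η → P ζ) {x y : Y} (γ : Path x y) : P γ := by
  obtain ⟨t, h0, hm, ⟨n, hn⟩, hs⟩ := exists_monotone_Icc_subset_open_cover_unitInterval
    (c := fun i => γ ⁻¹' U i) (fun i => (hU i).preimage γ.continuous)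
    (fun s _ => mem_iUnion.2 (hc (γ s)))
  have h1 : ∀ k, P (γ.subpath (t 0) (t k)) := by
    intro k
    induction k with
    | zero =>
      obtain ⟨i, hi⟩ := hc (γ (t 0))
      exact h i _ _ _ fun s => by simpa using hi
    | succ k ih =>
      obtain ⟨i, hi⟩ := hs k
      refine ht _ _ _ _ _ _ ⟨Path.Homotopy.subpathTransSubpath γ _ _ _⟩ ih (h i _ _ _ fun s => ?_)
      have := mem_range_self (f := γ.subpath (t k) (t (k + 1))) s
      rw [Path.range_subpath_of_le _ _ _ (hm k.le_succ)] at this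
      obtain ⟨u, hu, e⟩ := this
      exact e ▸ hi hu
  have h4 := h1 n
  have h5 := hn n le_rfl
  generalize t n = b at h4 h5
  generalize t 0 = a at h4 h0
  subst h0 h5
  rw [Path.subpath_zero_one] at h4
  have h6 : ∀ x' y' (e0 : x' = x) (e1 : y' = y), P (γ.cast e0 e1) → P γ := by
    rintro _ _ rfl rfl h
    exact h
  exact h6 _ _ _ _ h4

theorem univ_mem {X : Type} [TopologicalSpace X] {A : Set X} {x y z : X} {γ : Path x y}
    {η : Path y z} (h : ∀ t, γ t ∈ A) (h' : ∀ t, η t ∈ A) (t) : γ.trans η t ∈ A := by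
  have := mem_range_self (f := γ.trans η) t
  rw [Path.trans_range] at this
  rcases this with ⟨s, e⟩ | ⟨s, e⟩
  exacts [e ▸ h s, e ▸ h' s]

/-- Simply connected open neighbourhoods. -/
theorem univ_nhd (M : Mfd) (a : M) : ∃ U, IsOpen U ∧ a ∈ U ∧ IsSimplyConnected U := by
  let e := chartAt (E 5) a
  obtain ⟨r, hr, hs⟩ := Metric.isOpen_iff.1 e.open_target _ (mem_chart_target _ a)
  refine ⟨e.symm '' Metric.ball (e a) r, e.symm.isOpen_image_of_subset_source Metric.isOpen_ball hs,
    ⟨_, Metric.mem_ball_self hr, e.left_inv (mem_chart_source _ a)⟩, ?_⟩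
  have := (convex_ball (e a) r).contractibleSpace (Metric.nonempty_ball.2 hr)
  exact (e.symm.homeomorphOfImageSubsetSource hs rfl).symm.toHomotopyEquiv.simplyConnectedSpace

/-- The covering of the cocycle `k a b x = κ a x * (κ b x)⁻¹`, where `κ a x` is the class of the paths
from `a` to `x` in a simply connected neighbourhood of `a`. -/
theorem exists_univ (M : Mfd) : ∃ C : Cov M, SimplyConnectedSpace C.Y := by
  classical
  have := ChartedSpace.locallyPathConnectedSpace (E 5) M
  have : PathConnectedSpace M := .of_locallyPathConnectedSpace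
  obtain ⟨G, _, l, lm, le, ls⟩ := univ_lp M
  choose U Uo Um Us using univ_nhd M
  have l1 : ∀ x : M, l (Path.refl x) = 1 := fun x => by
    have := lm _ _ _ (Path.refl x) (Path.refl x)
    rw [Path.refl_trans_refl] at this
    exact left_eq_mul.1 this
  have J : ∀ a, ∀ x ∈ U a, JoinedIn (U a) a x := fun a x hx =>
    (Us a).isPathConnected.joinedIn a (Um a) x hx
  obtain ⟨κ, hκ⟩ : ∃ κ : M → M → G, ∀ a x y (γ : Path x y), (∀ t, γ t ∈ U a) →
      κ a y = κ a x * l γ := by
    refine ⟨fun a x => if h : x ∈ U a then l (J a x h).somePath else 1, fun a x y γ h => ?_⟩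
    have hx : x ∈ U a := by simpa using h 0
    have hy : y ∈ U a := by simpa using h 1
    obtain ⟨F, -⟩ := (isSimplyConnected_iff_exists_homotopy_refl_forall_mem.1 (Us a)).2 a
      (((J a x hx).somePath.trans γ).trans (J a y hy).somePath.symm)
      (univ_mem (univ_mem (J a x hx).somePath_mem h) fun t => (J a y hy).somePath_mem _)
    have h1 := (le _ _ _ _).2 ⟨F⟩
    have h2 := (le _ _ _ _).2 (Path.Homotopic.trans_symm (J a y hy).somePath)
    rw [lm, ← h1, lm, lm] at h2
    simp only [dif_pos hx, dif_pos hy]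
    exact mul_right_cancel h2
  obtain ⟨Y, _, _, q, s, hq, sc, sq, sk⟩ := exists_cov_of_cocycle U Uo (fun x => ⟨x, Um x⟩)
    (fun a b x => κ a x * (κ b x)⁻¹) (fun a b x hx => by
      filter_upwards [pathComponentIn_mem_nhds (((Uo a).inter (Uo b)).mem_nhds hx)] with y hy
      rw [hκ a x y _ fun t => (JoinedIn.somePath_mem hy t).1,
        hκ b x y _ fun t => (JoinedIn.somePath_mem hy t).2]
      group) (fun a b d x _ _ _ => by group)
  have := hq.isCancelSMul
  have cv := hq.isCoveringMap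
  have ex : ∀ y a, q y ∈ U a → ∃ g : G, g • s a (q y) = y := fun y a h =>
    hq.apply_eq_iff_mem_orbit.1 (sq a _ h).symm
  obtain ⟨cl, hcl⟩ : ∃ cl : Y → G, ∀ y a (g : G), q y ∈ U a → g • s a (q y) = y →
      cl y = g * κ a (q y) := by
    choose c hc using fun y => ex y (q y) (Um _)
    refine ⟨fun y => c y * κ (q y) (q y), fun y a g h e => ?_⟩
    rw [sk a (q y) (q y) ⟨h, Um _⟩, ← mul_smul] at e
    simp only
    rw [IsCancelSMul.right_cancel _ _ _ ((hc y).trans e.symm)]
    group
  have key : ∀ {y y' : Y} (Γ : Path y y'), cl y' = cl y * l (Γ.map cv.continuous) := by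
    intro y y' Γ
    refine univ_sub (fun a => q ⁻¹' U a) (fun a => (Uo a).preimage cv.continuous)
      (fun y => ⟨q y, Um _⟩) (fun {y y'} Γ => cl y' = cl y * l (Γ.map cv.continuous)) ?_ ?_ Γ
    · intro a y y' Γ h
      have hy : q y ∈ U a := by simpa using h 0
      have hy' : q y' ∈ U a := by simpa using h 1
      obtain ⟨g, hg⟩ := ex y a hy
      have h1 : (fun t => g • s a (q (Γ t))) = Γ := cv.eq_of_comp_eq
        ((hq.continuous_const_smul g).comp
          ((sc a).comp_continuous (cv.continuous.comp Γ.continuous) h)) Γ.continuous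
        (funext fun t => (hq.map_smul g).trans (sq a _ (h t))) 0 (by simpa using hg)
      rw [hcl y a g hy hg, hcl y' a g hy' (by simpa using congrFun h1 1),
        hκ a _ _ (Γ.map cv.continuous) h, mul_assoc]
    · intro x y z γ η ζ h h1 h2
      rw [← (le _ _ _ _).2 (h.map ⟨q, cv.continuous⟩), h2, h1, mul_assoc, ← lm, ← Path.map_trans]
  refine ⟨{ G := G, Y := Y, q := q, cov := hq }, simply_connected_iff_loops_nullhomotopic.2
    ⟨⟨?_, fun y y' => ?_⟩, fun y Γ => ?_⟩⟩
  · obtain ⟨x⟩ : Nonempty M := inferInstance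
    exact ⟨s x x⟩
  · obtain ⟨γ, hγ⟩ := ls (q y) (q y') ((cl y)⁻¹ * cl y')
    obtain ⟨Γ, h1, h0⟩ := cv.exists_path_lifts γ y γ.source
    have h2 : q (Γ 1) = q y' := (congrFun h1 1).trans γ.target
    have h3 := key (⟨Γ, h0, rfl⟩ : Path y (Γ 1))
    have h4 : ∀ x (η : Path (q y) x), x = q y' → (∀ t, η t = γ t) → l η = l γ := by
      rintro _ η rfl h
      rw [Path.ext (funext h)]
    rw [h4 _ _ h2 (congrFun h1), hγ, mul_inv_cancel_left] at h3
    obtain ⟨g, hg⟩ := ex y' (q y') (Um _)
    obtain ⟨g', hg'⟩ := ex (Γ 1) (q y') (h2 ▸ Um _)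
    rw [hcl _ _ g (Um _) hg, hcl _ _ g' (h2 ▸ Um _) hg', h2] at h3
    rw [h2, mul_right_cancel h3, hg] at hg'
    exact ⟨⟨Γ, h0, hg'.symm⟩⟩
  · have h1 := (left_eq_mul.1 (key Γ)).trans (l1 (q y)).symm
    refine Path.Homotopic.Quotient.eq.1 (cv.injective_path_homotopic_map y y ?_)
    exact Path.Homotopic.Quotient.eq.2 ((le _ _ _ _).1 h1)

end Pool.Agent.CSP
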